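import Pool.Agent.Q130.AL.All
import Pool.Agent.Q131.CM.Cov

/-!
# MP_cb9bff_gt, Q2: maps all of whose blow-ups are linear isomorphisms

Q2 asks to classify, up to diffeomorphism, the closed simply connected smooth 4-manifolds with a
given intersection form.  The question is when a homeomorphism, or a homotopy equivalence, can be
replaced by a diffeomorphism.  The theorem does this for a class of maps which need not be
differentiable anywhere and need not be locally Lipschitz; it is stated in all dimensions `n`.

A continuous map `f` is *asymptotically linear* at `x` if in some smooth coordinates around `x` and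
`f x` there is `K` such that for every `δ > 0`, on all sufficiently small balls `B(p, s)` with `p`
sufficiently near `x`, the map is `δ s ‖T‖`-close to an affine map `y ↦ f p + T (y - p)` with
`‖T‖ ‖T⁻¹‖ ≤ K`.  The linear map `T` depends on the centre `p` and the scale `s`.  In other words,
all blow-ups of `f` at `x` (with moving centres) are linear isomorphisms of distortion at most `K`.
With `K = 1` these are the asymptotically conformal maps.  The limit of `T` as `s → 0` need not
exist: the maps may spiral, and their local Lipschitz constants may be infinite.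

Let `X` be a closed smooth `n`-manifold, `Y` a smooth Hausdorff `n`-manifold and `f : X → Y` a
continuous map, not assumed injective or surjective, which is asymptotically linear at every point;
let `N` be an open set containing the points where `f` is not a local diffeomorphism.  Then every
neighbourhood of the graph of `f` contains the graphs of a homotopy from `f` to a smooth covering
map equal to `f` off `N`; if `X` is connected and `Y` is simply connected (the case of Q2), or if
`f` is a homeomorphism, it is a diffeomorphism.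
-/

set_option autoImplicit false

open Set Filter Topology Metric Function
open scoped Manifold ContDiff

noncomputable section

namespace Pool.Agent.Results.MP_cb9bff_gt.AsymptoticallyLinearMaps

/-- `ℝ^n` -/
abbrev R (n : ℕ) : Type := EuclideanSpace ℝ (Fin n)

/-- on the ball of radius `s` around `p` the map `G` differs by at most `δ s ‖T‖` from the affine
map with linear part `T` and the same value at `p` -/
def CloseTo (n : ℕ) (G : R n → R n) (T : R n →L[ℝ] R n) (δ : ℝ) (p : R n) (s : ℝ) : Prop :=
  ∀ y : R n, ‖y - p‖ ≤ s → ‖G y - G p - T (y - p)‖ ≤ δ * ‖T‖ * s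

/-- the map `G` of Euclidean spaces is asymptotically linear at `0`: for every `δ > 0`, on all small
balls with centres near `0` it is `δ`-close to an affine isomorphism of distortion at most `K` -/
def AsLin (n : ℕ) (G : R n → R n) : Prop :=
  ∃ K : ℝ, ∀ δ : ℝ, 0 < δ → ∃ r : ℝ, 0 < r ∧ ∀ p : R n, ‖p‖ < r → ∀ s : ℝ, 0 < s → s < r →
    ∃ T : R n ≃L[ℝ] R n, ‖(T : R n →L[ℝ] R n)‖ * ‖(T.symm : R n →L[ℝ] R n)‖ ≤ K ∧
      CloseTo n G T δ p s

section defs

variable (n : ℕ) {X Y : Type} [TopologicalSpace X] [TopologicalSpace Y]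
  [ChartedSpace (R n) X] [ChartedSpace (R n) Y]

/-- `f` is a smooth local diffeomorphism at `x` -/
def LocDiff (f : X → Y) (x : X) : Prop := IsLocalDiffeomorphAt (𝓡 n) (𝓡 n) ∞ f x

/-- `f` is asymptotically linear at `x`, in some smooth coordinates around `x` (the parametrization
`A`) and around `f x` (the chart `B`) -/
def AsymptoticallyLinear (f : X → Y) (x : X) : Prop :=
  ∃ (A : R n → X) (B : Y → R n), A 0 = x ∧ LocDiff n A 0 ∧ LocDiff n B (f x) ∧
    AsLin n fun p => B (f (A p))

end defs

/-- `f` and `g` are joined by a homotopy whose graphs lie in `O` -/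
def HomotopicIn {X Y : Type} [TopologicalSpace X] [TopologicalSpace Y] (O : Set (X × Y))
    (f g : X → Y) : Prop :=
  ∃ H : unitInterval × X → Y, Continuous H ∧ (∀ x, H (0, x) = f x) ∧ (∀ x, H (1, x) = g x) ∧
    ∀ t x, (x, H (t, x)) ∈ O

theorem homotopicIn {X Y : Type} [TopologicalSpace X] [TopologicalSpace Y] {O : Set (X × Y)}
    {f g : C(X, Y)} (h : Pool.Agent.Y66.CM.HomIn O f g) : HomotopicIn O f g := by
  obtain ⟨H⟩ := h
  exact ⟨H.toHomotopy, H.toHomotopy.continuous, H.apply_zero, H.apply_one, fun t x => H.prop' t x⟩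

/-- Asymptotically linear maps of closed manifolds are homotopic, near their graph, to smooth
covering maps, and to diffeomorphisms if the target is simply connected or the map is a
homeomorphism. -/
theorem result (n : ℕ) (X Y : Type) [TopologicalSpace X] [T2Space X] [CompactSpace X]
    [ChartedSpace (R n) X] [IsManifold (𝓡 n) ∞ X]
    [TopologicalSpace Y] [T2Space Y] [ChartedSpace (R n) Y] [IsManifold (𝓡 n) ∞ Y]
    (f : X → Y) (hfc : Continuous f) (hf : ∀ x, AsymptoticallyLinear n f x)
    (N : Set X) (hN : IsOpen N) (hfN : ∀ x, ¬ LocDiff n f x → x ∈ N)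
    (O : Set (X × Y)) (hO : IsOpen O) (hfO : ∀ x, (x, f x) ∈ O) :
    ∃ g : X → Y, HomotopicIn O f g ∧ IsCoveringMap g ∧ (∀ x, LocDiff n g x) ∧
      (∀ x, x ∉ N → g x = f x) ∧
      ((ConnectedSpace X ∧ SimplyConnectedSpace Y) ∨ Bijective f →
        ∃ Φ : Diffeomorph (𝓡 n) (𝓡 n) X Y ∞, ∀ x, Φ x = g x) := by
  obtain ⟨F, hF⟩ : ∃ F : C(X, Y), ∀ x, F x = f x := ⟨⟨f, hfc⟩, fun _ => rfl⟩
  have hFf : (F : X → Y) = f := funext hF
  have h1 : ∀ x, Pool.Agent.Q130.AL.ALm n F x := by
    intro x
    rw [hFf]
    obtain ⟨A, B, hA0, hA, hB, K, hK⟩ := hf x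
    refine ⟨B, hB, A, hA0, hA, K, fun δ hδ => ?_⟩
    obtain ⟨r, hr, h⟩ := hK δ hδ
    exact ⟨r, hr, fun x hx s hs hsr => h x (by rwa [sub_zero] at hx) s hs hsr⟩
  have hFO : ∀ x, (x, F x) ∈ O := fun x => by rw [hF]; exact hfO x
  obtain ⟨g, hg, hgl, hgN⟩ := Pool.Agent.Q130.AL.alall n X Y F O N hN
    (fun x hx => hfN x (by rw [hFf] at hx; exact hx)) h1 hO hFO
  have hloc : IsLocalHomeomorph g := Pool.Agent.Q131.CM.isLocalHomeomorph_of_LD hgl
  refine ⟨g, ?_, isLocalHomeomorph_iff_isCoveringMap.1 hloc, hgl, ?_, ?_⟩
  · rw [← hFf]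
    exact homotopicIn hg
  · intro x hx
    rw [hgN x hx, hF]
  · intro hcase
    have hb : Bijective g := by
      rcases hcase with ⟨hX, hY⟩ | hb
      · have : LocallyPathConnectedSpace X := ChartedSpace.locallyPathConnectedSpace (R n) X
        have hX : PathConnectedSpace X := pathConnectedSpace_iff_connectedSpace.2 inferInstance
        exact Pool.Agent.Q131.CM.bij_of_simplyConnected g hloc
      · let h : X ≃ₜ Y := hfc.homeoOfEquivCompactToT2 (f := Equiv.ofBijective f hb)
        have hg' : ContinuousMap.Homotopic g F := by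
          obtain ⟨G⟩ := hg
          exact ⟨G.toHomotopy.symm⟩
        exact Pool.Agent.Q131.CM.bij_of_homotopic_homeo h g F (fun x => hF x) hloc hg'
    have h2 : IsLocalDiffeomorph (𝓡 n) (𝓡 n) ∞ g := hgl
    exact ⟨h2.diffeomorphOfBijective hb, fun x => rfl⟩

end Pool.Agent.Results.MP_cb9bff_gt.AsymptoticallyLinearMaps
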