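import Pool.Agent.Q131.CM.Cov

/-!
# MP_cb9bff_gt, Q2: cone monotone maps between closed simply connected smooth 4-manifolds

Q2 asks for the classification up to diffeomorphism of the closed simply connected smooth
4-manifolds with a given intersection form.  By Freedman two such manifolds with the same form are
often homeomorphic, and the question is when a continuous map can be replaced by a diffeomorphism.
The theorem treats a class of continuous maps; it is stated in all dimensions `n` (for Q2: `n = 4`).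

Let `X` be a closed smooth `n`-manifold, `Y` a smooth Hausdorff `n`-manifold and `f : X → Y` a
continuous map, not assumed injective or surjective, which at every point is a local diffeomorphism
or *cone monotone*: in smooth coordinates around `x` and around `f x`, for every direction `v` the
increments `f q - f p`, for `p`, `q` near `x` with `q - p` nearly parallel to `v`, lie in a proper
convex cone around some vector.  Such a map may be nowhere differentiable; a sufficient condition is
local `δ`-monotonicity in some coordinates, `⟨f q - f p, q - p⟩ > δ ‖f q - f p‖ ‖q - p‖`.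

Then every neighbourhood `O` of the graph of `f` contains the graphs of a homotopy from `f` to a
smooth covering map `X → Y`.  If `X` is connected and `Y` is simply connected (the case of Q2), the
covering map is a diffeomorphism.  So two closed simply connected smooth 4-manifolds related by such
a map are diffeomorphic, by a diffeomorphism in the homotopy class of the map.

The method: mollification in finitely many overlapping boxes, one after the other; the means of
increments stay in the cones, so the map stays cone monotone in all the other boxes; in a box where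
the map is cone monotone the mollified map has an invertible derivative.
-/

set_option autoImplicit false

open Set Filter Topology Metric Function
open scoped Manifold ContDiff

noncomputable section

namespace Pool.Agent.Results.MP_cb9bff_gt.ConeMonotoneMaps

/-- `ℝ^n` -/
abbrev R (n : ℕ) : Type := EuclideanSpace ℝ (Fin n)

/-- the map `G` of Euclidean spaces is cone monotone at `0`: for every direction `v` there are
`r > 0` and a linear functional `ℓ` such that the increments of `G` between points of norm at most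
`r`, in the directions near `v`, lie in the cone `r ‖w‖ < ℓ w` -/
def ConeMon (n : ℕ) (G : R n → R n) : Prop :=
  ∀ v : R n, v ≠ 0 → ∃ (r : ℝ) (ℓ : R n →L[ℝ] ℝ), 0 < r ∧
    ∀ p q : R n, ‖p‖ ≤ r → ‖q‖ ≤ r → ∀ t : ℝ, 0 < t → ‖q - p - t • v‖ ≤ r * t →
      r * ‖G q - G p‖ < ℓ (G q - G p)

/-- the map `G` of Euclidean spaces is `δ`-monotone near `0`, for some `δ > 0` -/
def DeltaMon (n : ℕ) (G : R n → R n) : Prop :=
  ∃ δ r : ℝ, 0 < δ ∧ 0 < r ∧ ∀ p q : R n, ‖p‖ ≤ r → ‖q‖ ≤ r → p ≠ q →
    δ * (‖G q - G p‖ * ‖q - p‖) < inner ℝ (G q - G p) (q - p)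

section defs

variable (n : ℕ) {X Y : Type} [TopologicalSpace X] [TopologicalSpace Y]
  [ChartedSpace (R n) X] [ChartedSpace (R n) Y]

/-- `f` is a smooth local diffeomorphism at `x` -/
def LocDiff (f : X → Y) (x : X) : Prop := IsLocalDiffeomorphAt (𝓡 n) (𝓡 n) ∞ f x

/-- `A` is a smooth parametrization of a neighbourhood of `x`, with `A 0 = x` -/
def Param (A : R n → X) (x : X) : Prop := A 0 = x ∧ LocDiff n A 0

/-- `B` is a smooth chart of a neighbourhood of `y` -/
def Chart (B : Y → R n) (y : Y) : Prop := LocDiff n B y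

/-- `f` is cone monotone at `x`, in some smooth coordinates around `x` and `f x` -/
def ConeMonotone (f : X → Y) (x : X) : Prop :=
  ∃ (A : R n → X) (B : Y → R n), Param n A x ∧ Chart n B (f x) ∧ ConeMon n fun p => B (f (A p))

/-- `f` is `δ`-monotone near `x`, in some smooth coordinates around `x` and `f x` -/
def DeltaMonotone (f : X → Y) (x : X) : Prop :=
  ∃ (A : R n → X) (B : Y → R n), Param n A x ∧ Chart n B (f x) ∧ DeltaMon n fun p => B (f (A p))

end defs

/-- `f` and `g` are joined by a homotopy whose graphs lie in `O` -/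
def HomotopicIn {X Y : Type} [TopologicalSpace X] [TopologicalSpace Y] (O : Set (X × Y))
    (f g : X → Y) : Prop :=
  ∃ H : unitInterval × X → Y, Continuous H ∧ (∀ x, H (0, x) = f x) ∧ (∀ x, H (1, x) = g x) ∧
    ∀ t x, (x, H (t, x)) ∈ O

theorem DeltaMon.coneMon {n : ℕ} {G : R n → R n} (h : DeltaMon n G) : ConeMon n G := by
  obtain ⟨δ, r₀, hδ, hr₀, hG⟩ := h
  intro v hv
  have hv0 : 0 < ‖v‖ := norm_pos_iff.2 hv
  -- the radius
  obtain ⟨r, hr, hr1, hr2⟩ : ∃ r : ℝ, 0 < r ∧ r ≤ r₀ ∧ r * (δ + 2) ≤ δ * ‖v‖ / 2 := by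
    refine ⟨min r₀ (δ * ‖v‖ / 2 / (δ + 2)), lt_min hr₀ (by positivity), min_le_left _ _, ?_⟩
    calc min r₀ (δ * ‖v‖ / 2 / (δ + 2)) * (δ + 2) ≤ δ * ‖v‖ / 2 / (δ + 2) * (δ + 2) :=
          mul_le_mul_of_nonneg_right (min_le_right _ _) (by linarith)
      _ = δ * ‖v‖ / 2 := div_mul_cancel₀ _ (by linarith)
  refine ⟨r, innerSL ℝ v, hr, fun p q hp hq t ht hpq => ?_⟩
  rw [innerSL_apply_apply]
  obtain ⟨w, hw⟩ : ∃ w, w = G q - G p := ⟨_, rfl⟩
  obtain ⟨d, hd⟩ : ∃ d, d = q - p - t • v := ⟨_, rfl⟩
  have e1 : q - p = t • v + d := by rw [hd]; abel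
  have h1 : t * ‖v‖ - r * t ≤ ‖q - p‖ := by
    rw [e1]
    have h2 : ‖t • v‖ = t * ‖v‖ := by rw [norm_smul, Real.norm_of_nonneg ht.le]
    have h3 : ‖t • v‖ ≤ ‖t • v + d‖ + ‖d‖ := by
      have h4 := norm_sub_le (t • v + d) d
      rwa [add_sub_cancel_right] at h4
    rw [hd] at h3
    rw [← hd] at h3 hpq
    linarith
  have hr3 : r < ‖v‖ := by
    by_contra hcon
    have h5 : ‖v‖ * (δ + 2) ≤ r * (δ + 2) :=
      mul_le_mul_of_nonneg_right (not_lt.1 hcon) (by linarith)
    nlinarith
  have hne : p ≠ q := by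
    rintro rfl
    rw [sub_self, norm_zero] at h1
    nlinarith
  have h6 := hG p q (hp.trans hr1) (hq.trans hr1) hne
  rw [← hw] at h6 ⊢
  have h7 : inner ℝ w (q - p) = t * inner ℝ v w + inner ℝ w d := by
    rw [e1, inner_add_right, inner_smul_right, real_inner_comm]
  have h8 : inner ℝ w d ≤ ‖w‖ * (r * t) :=
    (real_inner_le_norm w d).trans (mul_le_mul_of_nonneg_left (by rw [hd]; exact hpq)
      (norm_nonneg _))
  have h9 : δ * (‖w‖ * (t * ‖v‖ - r * t)) ≤ δ * (‖w‖ * ‖q - p‖) :=
    mul_le_mul_of_nonneg_left (mul_le_mul_of_nonneg_left h1 (norm_nonneg _)) hδ.le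
  have h10 : δ * (‖w‖ * (t * ‖v‖ - r * t)) < t * inner ℝ v w + ‖w‖ * (r * t) := by linarith
  have h11 : t * (r * ‖w‖) < t * inner ℝ v w := by
    have h12 : r * (δ + 2) * (t * ‖w‖) ≤ δ * ‖v‖ / 2 * (t * ‖w‖) :=
      mul_le_mul_of_nonneg_right hr2 (by positivity)
    have h13 : 0 ≤ δ * ‖v‖ * (t * ‖w‖) := by positivity
    nlinarith
  exact lt_of_mul_lt_mul_left h11 ht.le

theorem homotopicIn {X Y : Type} [TopologicalSpace X] [TopologicalSpace Y] {O : Set (X × Y)}
    {f g : C(X, Y)} (h : Pool.Agent.Y66.CM.HomIn O f g) : HomotopicIn O f g := by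
  obtain ⟨H⟩ := h
  exact ⟨H.toHomotopy, H.toHomotopy.continuous, H.apply_zero, H.apply_one, fun t x => H.prop' t x⟩

/-- Continuous maps of closed manifolds which are local diffeomorphisms or cone monotone at every
point are homotopic, near their graph, to smooth covering maps, and to diffeomorphisms if the target
is simply connected; locally `δ`-monotone maps are cone monotone. -/
theorem result (n : ℕ) (X Y : Type) [TopologicalSpace X] [T2Space X] [CompactSpace X]
    [ChartedSpace (R n) X] [IsManifold (𝓡 n) ∞ X]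
    [TopologicalSpace Y] [T2Space Y] [ChartedSpace (R n) Y] [IsManifold (𝓡 n) ∞ Y]
    (f : X → Y) (hfc : Continuous f)
    (hf : ∀ x, LocDiff n f x ∨ ConeMonotone n f x ∨ DeltaMonotone n f x)
    (O : Set (X × Y)) (hO : IsOpen O) (hfO : ∀ x, (x, f x) ∈ O) :
    (∃ g : X → Y, HomotopicIn O f g ∧ IsCoveringMap g ∧ ∀ x, LocDiff n g x) ∧
      (ConnectedSpace X → SimplyConnectedSpace Y →
        ∃ Φ : Diffeomorph (𝓡 n) (𝓡 n) X Y ∞, HomotopicIn O f Φ) := by
  obtain ⟨F, hF⟩ : ∃ F : C(X, Y), ∀ x, F x = f x := ⟨⟨f, hfc⟩, fun _ => rfl⟩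
  have hFf : (F : X → Y) = f := funext hF
  have h1 : ∀ x, Pool.Agent.Y522.LD n F x ∨ Pool.Agent.Y66.CM.CMon n F x := by
    intro x
    rw [hFf]
    rcases hf x with h | ⟨A, B, ⟨hA0, hA⟩, hB, hc⟩ | ⟨A, B, ⟨hA0, hA⟩, hB, hc⟩
    · exact Or.inl h
    · exact Or.inr ⟨B, hB, A, hA0, hA, hc⟩
    · exact Or.inr ⟨B, hB, A, hA0, hA, hc.coneMon⟩
  have hFO : ∀ x, (x, F x) ∈ O := fun x => by rw [hF]; exact hfO x
  refine ⟨?_, fun hX hY => ?_⟩
  · obtain ⟨g, hg, hgl⟩ := Pool.Agent.Q131.CM.call_holds n X Y F O h1 hO hFO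
    refine ⟨g, ?_, ?_, hgl⟩
    · rw [← hFf]
      exact homotopicIn hg
    · exact isLocalHomeomorph_iff_isCoveringMap.1 (Pool.Agent.Q131.CM.isLocalHomeomorph_of_LD hgl)
  · obtain ⟨Φ, g, hgΦ, hg⟩ := Pool.Agent.Q131.CM.diffeo_of_simplyConnected F h1 O hO hFO
    refine ⟨Φ, ?_⟩
    have h2 := homotopicIn hg
    rw [hFf] at h2
    rwa [show (g : X → Y) = Φ from funext hgΦ] at h2

end Pool.Agent.Results.MP_cb9bff_gt.ConeMonotoneMaps
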