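import Pool.Agent.Q130.CM.Mix

/-!
# MP_cb9bff_gt, Q2: homeomorphisms with three kinds of points

Q2 asks to classify, up to diffeomorphism, the closed simply connected smooth 4-manifolds with a
given intersection form; by Freedman any two of them (of the same Kirby-Siebenmann class) are
homeomorphic, and the question is when some homeomorphism can be replaced by a diffeomorphism.

The theorem does this for every homeomorphism `f : X → Y` (not assumed differentiable) each point `x`
of which is of one of three kinds:
* `f` is a local diffeomorphism at `x`;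
* `f` is smooth near `x` with a differential of rank at least `dim - 1` (three in dimension four),
  with an arbitrary set of critical points; the inverse need not be differentiable;
* `f` is cone monotone at `x`: in some smooth coordinates around `x` and `f x`, for every direction
  `v` the increments `f q - f p`, for `p`, `q` near `x` with `q - p` nearly parallel to `v`, lie in
  a proper convex cone.  Such a map need not be smooth near `x`.

The kinds are mixed arbitrarily.  Then for every open set `V` containing the points where `f` is not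
a local diffeomorphism and every neighbourhood `O` of the graph of `f` there is a diffeomorphism
`X → Y` with graph in `O` which is equal to `f` off `V`.  The manifolds are arbitrary `σ`-compact
smooth manifolds of dimension at least two.
-/

set_option autoImplicit false

open Set Filter Topology Metric Function
open scoped Manifold ContDiff

noncomputable section

namespace Pool.Agent.Results.MP_cb9bff_gt.MixedHomeomorphisms

/-- `ℝ^n` -/
abbrev R (n : ℕ) : Type := EuclideanSpace ℝ (Fin n)

/-- the map `G` of Euclidean spaces is cone monotone at `0`: for every direction `v` there are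
`r > 0` and a linear functional `ℓ` such that the increments of `G` between points of norm at most
`r`, in the directions near `v`, lie in the cone `r ‖w‖ < ℓ w` -/
def ConeMon (n : ℕ) (G : R n → R n) : Prop :=
  ∀ v : R n, v ≠ 0 → ∃ (r : ℝ) (ℓ : R n →L[ℝ] ℝ), 0 < r ∧
    ∀ p q : R n, ‖p‖ ≤ r → ‖q‖ ≤ r → ∀ t : ℝ, 0 < t → ‖q - p - t • v‖ ≤ r * t →
      r * ‖G q - G p‖ < ℓ (G q - G p)

/-- the linear map `L` has rank at least `r`: composed with some linear map it is onto `ℝ^r` -/
def RankAtLeast (r : ℕ) {n : ℕ} (L : R n →L[ℝ] R n) : Prop :=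
  ∃ P : R n →L[ℝ] R r, Surjective (fun v => P (L v))

theorem RankAtLeast.le {m n : ℕ} {L : R n →L[ℝ] R n} (h : RankAtLeast m L) :
    m ≤ Module.finrank ℝ (LinearMap.range L.toLinearMap) := by
  obtain ⟨P, hP⟩ := h
  have h4 : Surjective (P.toLinearMap ∘ₗ (LinearMap.range L.toLinearMap).subtype) := by
    intro w
    obtain ⟨v, hv⟩ := hP w
    exact ⟨⟨_, LinearMap.mem_range_self _ v⟩, hv⟩
  have h5 := LinearMap.finrank_le_finrank_of_surjective h4
  rwa [finrank_euclideanSpace, Fintype.card_fin] at h5

section defs

variable (n : ℕ) {X Y : Type} [TopologicalSpace X] [ChartedSpace (R n) X]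
  [TopologicalSpace Y] [ChartedSpace (R n) Y]

/-- `f` is a smooth local diffeomorphism at `x` -/
def LocDiff (f : X → Y) (x : X) : Prop := IsLocalDiffeomorphAt (𝓡 n) (𝓡 n) ∞ f x

/-- `f` is smooth near `x` and its differential has rank at least `r` at the points near `x` -/
def SmoothOfRank (r : ℕ) (f : X → Y) (x : X) : Prop :=
  ∀ᶠ y in 𝓝 x, ContMDiffAt (𝓡 n) (𝓡 n) ∞ f y ∧ RankAtLeast r (mfderiv (𝓡 n) (𝓡 n) f y)

/-- `f` is cone monotone at `x`, in some smooth coordinates around `x` (the parametrization `A`) and
around `f x` (the chart `B`) -/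
def ConeMonotone (f : X → Y) (x : X) : Prop :=
  ∃ (A : R n → X) (B : Y → R n), A 0 = x ∧ LocDiff n A 0 ∧ LocDiff n B (f x) ∧
    ConeMon n fun p => B (f (A p))

/-- every point is a point where `f` is a local diffeomorphism, or a point of `V` at which `f` is
cone monotone, or a point of `V` near which `f` is smooth of rank at least `n - 1` -/
def ThreeKinds (f : X → Y) (V : Set X) : Prop :=
  ∀ x, LocDiff n f x ∨ (x ∈ V ∧ (ConeMonotone n f x ∨ SmoothOfRank n (n - 1) f x))

/-- every neighbourhood of the graph of `f` contains the graph of a diffeomorphism which is equal to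
`f` off `V` -/
def DiffeosNear (f : X → Y) (V : Set X) : Prop :=
  ∀ O : Set (X × Y), IsOpen O → (∀ x, (x, f x) ∈ O) →
    ∃ Φ : Diffeomorph (𝓡 n) (𝓡 n) X Y ∞, (∀ x, (x, Φ x) ∈ O) ∧ ∀ x, x ∉ V → Φ x = f x

end defs

/-- Let `X`, `Y` be smooth manifolds of dimension `n ≥ 2`.  A homeomorphism `f : X → Y` such that
every point is a point where `f` is a local diffeomorphism, or a point of the open set `V` which is
either cone monotone or near which `f` is smooth of rank at least `n - 1`, can be replaced by a
diffeomorphism which is equal to `f` off `V` and whose graph is in a given neighbourhood of the graph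
of `f`. -/
theorem result (n : ℕ) (hn : 2 ≤ n) (X Y : Type) [TopologicalSpace X] [T2Space X]
    [SigmaCompactSpace X] [ChartedSpace (R n) X] [IsManifold (𝓡 n) ∞ X]
    [TopologicalSpace Y] [ChartedSpace (R n) Y] [IsManifold (𝓡 n) ∞ Y]
    (f : X ≃ₜ Y) (V : Set X) (hV : IsOpen V) (hf : ThreeKinds n f V) : DiffeosNear n f V := by
  intro O hO hfO
  obtain ⟨m, hm, rfl⟩ : ∃ m : ℕ, 1 ≤ m ∧ n = m + 1 := ⟨n - 1, by omega, by omega⟩
  have : T2Space Y := f.t2Space
  obtain ⟨f', h1, h2, h3, h4⟩ := Pool.Agent.Q130.CM.mixInf m hm X Y f V hV
    (fun x hx => by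
      rcases hf x with h | ⟨hxV, ⟨A, B, hA0, hA, hB, hc⟩ | h⟩
      · exact absurd h hx
      · exact ⟨hxV, Or.inl ⟨B, hB, A, hA0, hA, hc⟩⟩
      · refine ⟨hxV, Or.inr ?_⟩
        exact h.mono fun y hy => ⟨hy.1, hy.2.le⟩) O hO hfO
  have hl : IsLocalDiffeomorph (𝓡 (m + 1)) (𝓡 (m + 1)) ∞ f' := h3
  exact ⟨hl.diffeomorphOfBijective h2, h1, h4⟩

end Pool.Agent.Results.MP_cb9bff_gt.MixedHomeomorphisms
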